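import Pool.Agent.Helper43.GD.St

/-! Project GD, module B5: in case B the ring is local and all units are Weyl units. -/

set_option autoImplicit false

namespace Pool.Agent.Helper37.GD

open Pool.Agent.Helper43.GD

theorem hB5 (hB3 : StB3) (hB4 : StB4) (hGNS : StGNS) : StB5 := by
  intro L A _ _ Q M x hCB
  obtain ⟨hRg, hxU, hnt, hinv⟩ := id hCB
  haveI : Nontrivial L := hnt
  -- basic facts on `In`
  have In_mul : ∀ a b : L, Q.In a → Q.In b → Q.In (a * b) := by
    rintro a b ⟨u, hu, rfl⟩ ⟨v, hv, rfl⟩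
    exact ⟨u * v, Q.U.mul_mem hu hv, by rw [Units.val_mul]⟩
  have In_neg : ∀ a : L, Q.In a → Q.In (-a) := by
    rintro a ⟨u, hu, rfl⟩
    refine ⟨-1 * u, Q.U.mul_mem Q.neg hu, ?_⟩
    rw [Units.val_mul]; simp
  -- the ideals of B4 lie in every maximal ideal
  have hjac : ∀ P : Ideal L, P.IsMaximal → ∀ I : Ideal L,
      (∀ δ : L, δ ∈ I ↔ δ ∈ P ∧ Q.In (1 + δ)) → ∀ P' : Ideal L, P'.IsMaximal →
      ∀ δ ∈ I, δ ∈ P' := by
    intro P hP I hI P' hP' δ hδ
    have h1 : δ ∈ Ideal.jacobson (⊥ : Ideal L) := by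
      rw [Ideal.mem_jacobson_bot]
      intro y
      obtain ⟨v, _, hv⟩ := ((hI (δ * y)).1 (I.mul_mem_right y hδ)).2
      rw [add_comm, ← hv]
      exact v.isUnit
    have h2 : Ideal.jacobson (⊥ : Ideal L) ≤ P' := by
      apply sInf_le
      exact ⟨bot_le, hP'⟩
    exact h2 h1
  obtain ⟨P₀, hP₀⟩ := Ideal.exists_maximal L
  obtain ⟨I, hI⟩ := hB4 L A Q M x hCB P₀ hP₀
  have hIP : ∀ δ ∈ I, δ ∈ P₀ := fun δ hδ => ((hI δ).1 hδ).1
  have hnon : ∀ y ∈ Q.U, ¬ IsUnit (1 - (y : L)) → 1 - (y : L) ∈ I := by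
    intro y hy hu
    obtain ⟨P', hP', hm⟩ := exists_max_ideal_of_mem_nonunits (mem_nonunits_iff.2 hu)
    obtain ⟨I', hI'⟩ := hB4 L A Q M x hCB P' hP'
    have hm' : (y : L) - 1 ∈ P' := by
      have := P'.neg_mem hm
      rwa [neg_sub] at this
    have hin : Q.In (1 + ((y : L) - 1)) := ⟨y, hy, by ring⟩
    have h1 : (y : L) - 1 ∈ I' := (hI' _).2 ⟨hm', hin⟩
    have h2 : (y : L) - 1 ∈ P₀ := hjac P' hP' I' hI' P₀ hP₀ _ h1
    have h3 : (y : L) - 1 ∈ I := (hI _).2 ⟨h2, hin⟩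
    have := I.neg_mem h3
    rwa [neg_sub] at this
  -- `ε + δ`
  have hmix : ∀ a b : L, Q.In a → b ∈ I → Q.In (a + b) := by
    rintro a b ⟨u, hu, rfl⟩ hb
    have h1 : Q.In (1 + ((u⁻¹ : Lˣ) : L) * b) := ((hI _).1 (I.mul_mem_left _ hb)).2
    have h2 := In_mul (u : L) _ ⟨u, hu, rfl⟩ h1
    have e : (u : L) * (1 + ((u⁻¹ : Lˣ) : L) * b) = (u : L) + b := by
      rw [mul_add, mul_one, ← mul_assoc, Units.mul_inv, one_mul]
    rwa [e] at h2
  let S : AddSubgroup L :=
    { carrier := {a | a ∈ I ∨ Q.In a}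
      add_mem' := by
        rintro a b (ha | ha) (hb | hb)
        · exact Or.inl (I.add_mem ha hb)
        · right
          rw [add_comm]
          exact hmix b a hb ha
        · exact Or.inr (hmix a b ha hb)
        · obtain ⟨u, hu, rfl⟩ := ha
          obtain ⟨v, hv, rfl⟩ := hb
          have hy : (-1 : Lˣ) * (v * u⁻¹) ∈ Q.U :=
            Q.U.mul_mem Q.neg (Q.U.mul_mem hv (Q.U.inv_mem hu))
          have e : (u : L) + (v : L) = (u : L) * (1 - (((-1 : Lˣ) * (v * u⁻¹) : Lˣ) : L)) := by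
            rw [Units.val_mul, Units.val_mul, Units.val_neg, Units.val_one]
            have := u.mul_inv
            linear_combination (-(v : L)) * this
          by_cases hun : IsUnit (1 - (((-1 : Lˣ) * (v * u⁻¹) : Lˣ) : L))
          · right
            rw [e]
            exact In_mul _ _ ⟨u, hu, rfl⟩ (hB3 L A Q M x hCB _ hy hun)
          · left
            rw [e]
            exact I.mul_mem_left _ (hnon _ hy hun)
      zero_mem' := Or.inl I.zero_mem
      neg_mem' := by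
        rintro a (ha | ha)
        · exact Or.inl (I.neg_mem ha)
        · exact Or.inr (In_neg a ha) }
  have hS : ∀ a : L, a ∈ S ↔ (a ∈ I ∨ Q.In a) := fun a => Iff.rfl
  have hall : ∀ a : L, a ∈ I ∨ Q.In a := by
    intro a
    rw [← hS]
    refine (hGNS L M x hRg).1 S ?_ ?_ a
    · rw [hS]
      exact Or.inr ⟨1, Q.U.one_mem, Units.val_one⟩
    · intro y hy
      rw [hS] at hy ⊢
      rcases hy with hy | hy
      · exact Or.inl (I.mul_mem_left _ hy)
      · exact Or.inr (In_mul _ _ ⟨x, hxU, rfl⟩ hy)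
  have hnu : ∀ a ∈ I, ¬ IsUnit a := by
    intro a ha hu
    exact hP₀.ne_top (Ideal.eq_top_of_isUnit_mem _ (hIP a ha) hu)
  have hnu' : ∀ a : L, ¬ IsUnit a → a ∈ I := by
    intro a ha
    rcases hall a with h | ⟨u, _, rfl⟩
    · exact h
    · exact absurd u.isUnit ha
  refine ⟨?_, ?_⟩
  · apply IsLocalRing.of_nonunits_add
    intro a b ha hb
    rw [mem_nonunits_iff] at ha hb ⊢
    exact hnu _ (I.add_mem (hnu' a ha) (hnu' b hb))
  · intro u
    rcases hall (u : L) with h | ⟨v, hv, hvu⟩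
    · exact absurd u.isUnit (hnu _ h)
    · have : v = u := Units.ext hvu
      rwa [← this]

end Pool.Agent.Helper37.GD
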